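import Pool.Agent.TH552.BB.Common
import Pool.Agent.TH793.UM.Pts
import Pool.Agent.TH641.UM.MS

/-! The matching lemma, composition of its two halves. -/

set_option autoImplicit false

namespace Pool.Agent.TH266.UM

theorem matchHyp : Pool.Agent.TH641.UM.MatchHyp := by
  intro ι₁ ι₂ _ _ w₁ w₂ D d p q hD hpq h1 h2 h3 h4
  obtain ⟨A, p0, Q, W, V, hp0, hQ, hW, hV, hp, hq, c1, c2, c3, c4⟩ :=
    Pool.Agent.TH552.BB.common w₁ w₂ D d p q h1 h2 h3 h4
  exact Pool.Agent.TH793.UM.match_of_points hD A p0 Q W V hp0 hQ hW hV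
    ((add_le_add hp hq).trans hpq) c1 c2 c3 c4

end Pool.Agent.TH266.UM
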