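import Mathlib
import Pool.Agent.TH105.N13.Fin
import Pool.Agent.TH266.UM.Match

set_option autoImplicit false

/-!
# Uniform fat points: the expected dimension for all multiplicities and all degrees, all large `n`

There is `N0` such that for all `n ≥ N0` and all `m ≥ 1` the space of forms of degree `d` vanishing
to order `m` at `n` general points of the complex projective plane has the expected dimension for
every degree `d`. The general position is one nonempty Zariski-open condition depending on `n` and
`m`, not on `d`.

Library copy of the former hand-in MP_d03834_ag.UniformAllLargeN, replaced by UniformFromThirtySeven.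
-/

namespace Pool.Agent.TH266.UM.AllLargeN

theorem uniform_all_large : ∃ N0 : ℕ, ∀ n : ℕ, N0 ≤ n → ∀ m : ℕ, 1 ≤ m →
    ∃ F : MvPolynomial (Fin n × Fin 2) ℂ, F ≠ 0 ∧
      ∀ P : Fin n → Fin 2 → ℂ,
        MvPolynomial.eval (fun ij : Fin n × Fin 2 => P ij.1 ij.2) F ≠ 0 →
        ∀ d : ℕ,
          Module.finrank ℂ
            ↥(MvPolynomial.homogeneousSubmodule (Fin 3) ℂ d ⊓
              Submodule.restrictScalars ℂ
                (⨅ i : Fin n,
                  (Ideal.span
                    ({MvPolynomial.X 0 - MvPolynomial.C (P i 0) * MvPolynomial.X 2,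
                      MvPolynomial.X 1 - MvPolynomial.C (P i 1) * MvPolynomial.X 2} :
                      Set (MvPolynomial (Fin 3) ℂ))) ^ m))
          = Nat.choose (d + 2) 2 - n * Nat.choose (m + 1) 2 := by
  obtain ⟨N0, h⟩ := Pool.Agent.TH105.N13.expDim_all Pool.Agent.TH266.UM.matchHyp
  refine ⟨N0, fun n hn m hm => ?_⟩
  obtain ⟨F, hF, hF'⟩ := h n hn m hm (L := ℂ)
  refine ⟨F.map (algebraMap ℚ ℂ), Pool.Agent.H932R3.map_ne_zero_of hF, fun P hP d => ?_⟩
  rw [MvPolynomial.eval_map] at hP
  have h1 := hF' P hP d
  unfold Pool.Agent.H932R3.ExpDim at h1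
  rw [Finset.sum_const, Finset.card_univ, Fintype.card_fin, smul_eq_mul] at h1
  exact h1

end Pool.Agent.TH266.UM.AllLargeN
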