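import Pool.Agent.TH266.UM.Stmts

/-!
# N13: the count of a row, split in three independent pieces (combinatorics up, low; real analysis)
-/

set_option autoImplicit false

namespace Pool.Agent.TH266.UM

open Finset Pool.Agent.TH176.Nag Pool.Agent.TH603.Sur Pool.Agent.TH603.Cut

/-- for `j < k`: the number of `i` with `j + k i < H` -/
def hh (k H j : ℕ) : ℕ := (H + (k - 1 - j)) / k

/-- left end of the interval `i` of class `j`, without the absorbed point -/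
noncomputable def aa (lam : ℝ) (v : ℤ) (k d t j i : ℕ) : ℤ :=
  LL lam d 0 (j + k * (i + t)) + v * ((i + t : ℕ) : ℤ)

/-- right end of the interval `i` of class `j` -/
noncomputable def bb (lam : ℝ) (v : ℤ) (k d j i : ℕ) : ℤ := UU lam d (j + k * i) + v * (i : ℤ)

/-- the count of the class `j`: one long interval `i ≤ hh k H j`, and then single intervals
`hh k H j < i`, `j + k i ≤ Q` -/
noncomputable def cntj (lam : ℝ) (v : ℤ) (k d e t H Q j : ℕ) : ℤ :=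
  (bb lam v k d j (hh k H j) + 1 - aa lam v k d t j 0 - ((e - k * t - j : ℕ) : ℤ)) +
    ∑ i ∈ Ico (hh k H j + 1) (hh k (Q + 1) j), (bb lam v k d j i + 1 - aa lam v k d t j i)

/-- CNTN : the total count is close to the main term -/
def S_CNTN : Prop := ∀ (P k : ℕ) (v : ℤ) (K lam δ : ℝ), Par P k v K lam δ → ∀ d e t H Q : ℕ,
  K ≤ 3 * d - K * t → H ≤ Q → 9 * (Q : ℝ) ≤ 3 * d - K * t → 3 * d - K * t < 9 * (Q + 1) →
  3 * d - K * t - 9 * H < K → K - 9 ≤ 3 * d - K * t - 9 * H →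
  |((∑ j ∈ range k, cntj lam v k d e t H Q j : ℤ) : ℝ) - main K k d e t| ≤ err P k

/-- CNTU : upper bound for one class -/
def S_CNTU : Prop := ∀ (k : ℕ) (v : ℤ) (K lam : ℝ), 1 ≤ k → (k : ℝ) * lam + v = K → 9 * (k : ℝ) ≤ K →
  ∀ d e t H Q j : ℕ, j < k → H + k ≤ Q + 1 → 9 * (Q : ℝ) ≤ 3 * d - K * t → 3 * d - K * t < 9 * (Q + 1) →
  ((e - k * t - j : ℕ) : ℝ) ≤ 3 * d - K * t - 9 * j →
  ∀ B : Finset ℤ, (∀ z ∈ B, z ∈ VV lam v k d e t j) → (B.card : ℤ) ≤ cntj lam v k d e t H Q j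

/-- CNTL : lower bound for one class -/
def S_CNTL : Prop := ∀ (k : ℕ) (v : ℤ) (K lam : ℝ), 1 ≤ k → (k : ℝ) * lam + v = K → 9 * (k : ℝ) ≤ K →
  ∀ d e t H Q j : ℕ, j < k → H + k ≤ Q + 1 → 9 * (Q : ℝ) ≤ 3 * d - K * t → 3 * d - K * t < 9 * (Q + 1) →
  ((e - k * t - j : ℕ) : ℝ) ≤ 3 * d - K * t - 9 * j →
  (∀ J : ℕ, J < H → K + ((e - k * (t + 1) - J : ℕ) : ℝ) ≤ 3 * d - K * t - 9 * J) →
  (∀ J : ℕ, H ≤ J → 3 * d - K * t - 9 * J < K) → (∀ J : ℕ, H ≤ J → e ≤ k * (t + 1) + J) →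
  ∃ B : Finset ℤ, (∀ z ∈ B, z ∈ VV lam v k d e t j) ∧ (B.card : ℤ) = cntj lam v k d e t H Q j

theorem rowU (hN : S_CNTN) (hU : S_CNTU) : S_ROWU := by
  intro P k v K lam δ hp d e t hY hE B hB
  have hk : 1 ≤ k := le_trans (by have := hp.hP; omega) hp.hk
  have hkR : (1 : ℝ) ≤ k := by exact_mod_cast hk
  have hK9 : 9 ≤ K := by have := hp.h9; linarith
  obtain ⟨H, Q, hHQ, hQ1, hQ2, h1, h2, h3, -⟩ :=
    Pool.Agent.TH641.NW.exists_hQ (Y := 3 * d - K * t) hK9 (by linarith)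
  have h3' := h3 hY
  have hHk : H + k ≤ Q + 1 := by
    have h4 : 9 * ((H : ℝ) + k) < 9 * (Q + 2) := by have := hp.h9; linarith
    have h5 : ((H + k : ℕ) : ℝ) < ((Q + 2 : ℕ) : ℝ) := by push_cast; linarith
    have h6 : H + k < Q + 2 := by exact_mod_cast h5
    omega
  have h4 := hN P k v K lam δ hp d e t H Q hY hHQ hQ1 hQ2 h2 h3'
  have h5 : ((∑ j ∈ range k, (B j).card : ℕ) : ℤ) ≤ ∑ j ∈ range k, cntj lam v k d e t H Q j := by
    push_cast
    refine sum_le_sum fun j hj => ?_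
    have hj' := mem_range.1 hj
    exact hU k v K lam hk hp.hlam hp.h9 d e t H Q j hj' hHk hQ1 hQ2 (hE j hj') (B j) (hB j hj')
  have h6 : ((∑ j ∈ range k, (B j).card : ℕ) : ℝ) ≤
      ((∑ j ∈ range k, cntj lam v k d e t H Q j : ℤ) : ℝ) := by exact_mod_cast h5
  have h7 := (abs_le.1 h4).2
  linarith

theorem rowL (hN : S_CNTN) (hL : S_CNTL) : S_ROWL := by
  intro P k v K lam δ hp d e t hY hE hO hT
  have hk : 1 ≤ k := le_trans (by have := hp.hP; omega) hp.hk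
  have hkR : (1 : ℝ) ≤ k := by exact_mod_cast hk
  have hK9 : 9 ≤ K := by have := hp.h9; linarith
  obtain ⟨H, Q, hHQ, hQ1, hQ2, h1, h2, h3, -⟩ :=
    Pool.Agent.TH641.NW.exists_hQ (Y := 3 * d - K * t) hK9 (by linarith)
  have h3' := h3 hY
  have hHk : H + k ≤ Q + 1 := by
    have h4 : 9 * ((H : ℝ) + k) < 9 * (Q + 2) := by have := hp.h9; linarith
    have h5 : ((H + k : ℕ) : ℝ) < ((Q + 2 : ℕ) : ℝ) := by push_cast; linarith
    have h6 : H + k < Q + 2 := by exact_mod_cast h5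
    omega
  have h4 := hN P k v K lam δ hp d e t H Q hY hHQ hQ1 hQ2 h2 h3'
  have hJ : ∀ J : ℕ, H ≤ J → 3 * d - K * t - 9 * J < K := by
    intro J hJ
    have : (H : ℝ) ≤ J := by exact_mod_cast hJ
    linarith
  have h5 : ∀ j : ℕ, ∃ B : Finset ℤ, j < k → ((∀ z ∈ B, z ∈ VV lam v k d e t j) ∧
      (B.card : ℤ) = cntj lam v k d e t H Q j) := by
    intro j
    by_cases hj : j < k
    · obtain ⟨B, hB1, hB2⟩ := hL k v K lam hk hp.hlam hp.h9 d e t H Q j hj hHk hQ1 hQ2 (hE j hj)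
        (fun J hJ => hO J (h1 J hJ)) hJ (fun J hJ' => hT J (hJ J hJ'))
      exact ⟨B, fun _ => ⟨hB1, hB2⟩⟩
    · exact ⟨∅, fun h => absurd h hj⟩
  choose B hB using h5
  refine ⟨B, fun j hj => (hB j hj).1, ?_⟩
  have h6 : ((∑ j ∈ range k, (B j).card : ℕ) : ℤ) = ∑ j ∈ range k, cntj lam v k d e t H Q j := by
    push_cast
    exact sum_congr rfl fun j hj => (hB j (mem_range.1 hj)).2
  have h7 : ((∑ j ∈ range k, (B j).card : ℕ) : ℝ) =
      ((∑ j ∈ range k, cntj lam v k d e t H Q j : ℤ) : ℝ) := by exact_mod_cast h6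
  have h8 := (abs_le.1 h4).1
  linarith

end Pool.Agent.TH266.UM
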