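import Pool.Agent.TH266.UM.Stmts

/-!
# N13: the two systems with one point of multiplicity about `k m + k / 2`
-/

set_option autoImplicit false

namespace Pool.Agent.TH266.UM

open Finset Pool.Agent.TH176.Nag Pool.Agent.TH603.Sur Pool.Agent.TH603.Cut

theorem sum_tooth (k E : ℕ) (h : k ≤ E + 1) :
    ∑ j ∈ range k, ((E - j : ℕ) : ℝ) = k * E - k * (k - 1) / 2 := by
  induction k with
  | zero => simp
  | succ k ih =>
    rw [sum_range_succ, ih (by omega), Nat.cast_sub (by omega)]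
    push_cast
    ring

/-- the numbers -/
structure Num (n k k' m d : ℕ) (K : ℝ) (s : ℝ) (η : ℝ) : Prop where
  hs : s * s = n
  hs0 : 0 < s
  hk : k = 2 * k'
  hk5 : 5000 ≤ k
  hks : 3 * (k : ℝ) ≤ s
  hsk : s < 6 * k
  hm : n ≤ 2 * m
  hX : |s * (d + 3 / 2) - n * (m + 1 / 2)| ≤ (k : ℝ) / 4
  hη0 : 0 < η
  hηd : η * (d + 2) ≤ 1
  hηm : η * ((2 * s + 1) * (m + 1)) ≤ 1
  hK1 : 3 * s < K
  hK2 : K < 3 * s + η

namespace Num
variable {n k k' m d : ℕ} {K s η : ℝ}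

theorem d_bounds (h : Num n k k' m d K s η) :
    3 * s * m + 3 * s / 2 - 19 / 4 ≤ 3 * d ∧ 3 * (d : ℝ) ≤ 3 * s * m + 3 * s / 2 - 17 / 4 := by
  have hk0 : (0 : ℝ) < k := by
    have := h.hk5
    exact_mod_cast (by omega : 0 < k)
  have h1 := abs_le.1 h.hX
  have hs := h.hs
  have hs0 := h.hs0
  have e : s * (d + 3 / 2) - n * (m + 1 / 2) = s * (d + 3 / 2 - s * (m + 1 / 2)) := by
    rw [← hs]; ring
  rw [e] at h1
  have h2 : (k : ℝ) / 4 ≤ s * (1 / 12) := by have := h.hks; linarith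
  constructor
  · have h3 : s * (-(1 / 12)) ≤ s * (d + 3 / 2 - s * (m + 1 / 2)) := by linarith [h1.1]
    have h4 := le_of_mul_le_mul_left h3 hs0
    linarith
  · have h3 : s * (d + 3 / 2 - s * (m + 1 / 2)) ≤ s * (1 / 12) := by linarith [h1.2]
    have h4 := le_of_mul_le_mul_left h3 hs0
    linarith

theorem hηm' (h : Num n k k' m d K s η) : η * m ≤ 1 / 4 := by
  have h1 := h.hηm
  have hs0 := h.hs0
  have hη := h.hη0
  have hks := h.hks
  have hk5 : (5000 : ℝ) ≤ k := by exact_mod_cast h.hk5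
  have hm0 : (0 : ℝ) ≤ m := Nat.cast_nonneg m
  have h2 : 4 * m ≤ (2 * s + 1) * (m + 1) := by nlinarith
  have h3 : η * (4 * m) ≤ η * ((2 * s + 1) * (m + 1)) := mul_le_mul_of_nonneg_left h2 hη.le
  linarith

/-- the height of the rows -/
theorem Y_m (h : Num n k k' m d K s η) :
    3 * s / 2 - 5 ≤ 3 * d - K * m ∧ 3 * (d : ℝ) - K * m ≤ 3 * s / 2 - 17 / 4 := by
  obtain ⟨h1, h2⟩ := h.d_bounds
  have h3 := h.hηm'
  have hm0 : (0 : ℝ) ≤ m := Nat.cast_nonneg m
  have h4 : K * m ≤ (3 * s + η) * m := mul_le_mul_of_nonneg_right h.hK2.le hm0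
  have h5 : 3 * s * m ≤ K * m := mul_le_mul_of_nonneg_right h.hK1.le hm0
  constructor <;> nlinarith

theorem main_eq (h : Num n k k' m d K s η) {t : ℕ} (ht : t ≤ m) (e : ℕ) :
    |main K k d e t - (s * (d + 3 / 2) - n * (t + 1 / 2) - ∑ j ∈ range k, ((e - k * t - j : ℕ) : ℝ))| ≤
      1 / 3 := by
  have hs0 := h.hs0
  have hη := h.hη0
  have ht0 : (0 : ℝ) ≤ t := Nat.cast_nonneg t
  have htm : (t : ℝ) ≤ m := by exact_mod_cast ht
  have hd0 : (0 : ℝ) ≤ d := Nat.cast_nonneg d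
  obtain ⟨u, hu⟩ : ∃ u : ℝ, u = K / 3 - s := ⟨_, rfl⟩
  have hK : K = 3 * (s + u) := by rw [hu]; ring
  have hu0 : 0 ≤ u := by rw [hu]; linarith [h.hK1]
  have hu1 : 3 * u ≤ η := by rw [hu]; linarith [h.hK2]
  have h1 := h.hηd
  have h2 := h.hηm
  have e1 : main K k d e t - (s * (d + 3 / 2) - n * (t + 1 / 2) -
      ∑ j ∈ range k, ((e - k * t - j : ℕ) : ℝ)) = u * (d + 3 / 2) - u * (2 * s + u) * (t + 1 / 2) := by
    unfold main
    rw [← h.hs, hK]
    ring
  have hη1 : η ≤ 1 := by nlinarith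
  rw [e1, abs_le]
  have h3 : u * (d + 3 / 2) ≤ 1 / 3 := by
    have : (3 * u) * (d + 2) ≤ η * (d + 2) := mul_le_mul_of_nonneg_right hu1 (by linarith)
    nlinarith
  have h4 : u * (2 * s + u) * (t + 1 / 2) ≤ 1 / 3 := by
    have h5 : (2 * s + u) * (t + 1 / 2) ≤ (2 * s + 1) * (m + 1) :=
      mul_le_mul (by linarith) (by linarith) (by linarith) (by linarith)
    have h6 : (3 * u) * ((2 * s + u) * (t + 1 / 2)) ≤ η * ((2 * s + 1) * (m + 1)) :=
      mul_le_mul hu1 h5 (by positivity) hη.le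
    nlinarith
  have h5 : 0 ≤ u * (d + 3 / 2) := by positivity
  have h6 : 0 ≤ u * (2 * s + u) * (t + 1 / 2) := by positivity
  constructor <;> linarith

theorem sum_eq (h : Num n k k' m d K s η) {t : ℕ} (ht : t < m) :
    ∑ j ∈ range k, ((k * m + k / 2 - k * t - j : ℕ) : ℝ) = (k : ℝ) ^ 2 * (m - t) + k / 2 ∧
    ∑ j ∈ range k, ((k * m + k / 2 - 1 - k * t - j : ℕ) : ℝ) = (k : ℝ) ^ 2 * (m - t) - k / 2 := by
  obtain ⟨c, rfl⟩ : ∃ c, m = t + 1 + c := ⟨m - t - 1, by omega⟩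
  have hk := h.hk
  have hk5 := h.hk5
  have hk2 : k / 2 = k' := by omega
  have e1 : k * (t + 1 + c) + k / 2 - k * t = k * (c + 1) + k' := by
    rw [hk2]
    have : k * (t + 1 + c) = k * t + k * (c + 1) := by ring
    omega
  have e2 : k * (t + 1 + c) + k / 2 - 1 - k * t = k * (c + 1) + k' - 1 := by
    rw [hk2]
    have : k * (t + 1 + c) = k * t + k * (c + 1) := by ring
    omega
  have h3 : k ≤ k * (c + 1) := Nat.le_mul_of_pos_right _ (by omega)
  have hkR : (k : ℝ) = 2 * k' := by exact_mod_cast hk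
  rw [e1, e2, sum_tooth _ _ (by omega), sum_tooth _ _ (by omega), Nat.cast_sub (by omega)]
  push_cast
  rw [hkR]
  constructor <;> ring

end Num

/-- existence of a good `η` -/
theorem exists_eta (m d : ℕ) {s : ℝ} (hs : 0 < s) : ∃ η : ℝ, 0 < η ∧ η * (d + 2) ≤ 1 ∧
    η * ((2 * s + 1) * (m + 1)) ≤ 1 := by
  have hd : (0 : ℝ) ≤ d := Nat.cast_nonneg d
  have hm : (0 : ℝ) ≤ m := Nat.cast_nonneg m
  have h1 : (0 : ℝ) < d + 2 := by linarith
  have h2 : 0 < (2 * s + 1) * (m + 1) := by positivity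
  refine ⟨1 / ((d + 2) + (2 * s + 1) * (m + 1)), by positivity, ?_, ?_⟩
  · rw [one_div_mul_eq_div, div_le_one (by positivity)]
    linarith
  · rw [one_div_mul_eq_div, div_le_one (by positivity)]
    linarith

theorem fe (hU : S_ROWU) (hL : S_ROWL) (hT : S_ROWT) (hGE : S_GEOE) (hGS : S_GEOS) (hC : S_CH) :
    S_FE := by
  intro N
  obtain ⟨n0, hn0⟩ := hC 200 (max N 5000) (by norm_num)
  refine ⟨n0, fun n hn => ?_⟩
  obtain ⟨k, hkN, hkev, hk9, hk36, hch⟩ := hn0 n hn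
  refine ⟨k, (le_max_left _ _).trans hkN, hkev, hk9, hk36, fun m d hm hX => ?_⟩
  have hk5 : 5000 ≤ k := (le_max_right _ _).trans hkN
  obtain ⟨k', hk'⟩ := hkev
  have hk2 : k / 2 = k' := by omega
  obtain ⟨s, hsdef⟩ : ∃ s : ℝ, s = √(n : ℝ) := ⟨_, rfl⟩
  have hkR : (5000 : ℝ) ≤ k := by exact_mod_cast hk5
  have hn1 : 9 * (k : ℝ) ^ 2 ≤ n := by exact_mod_cast hk9
  have hn2 : (n : ℝ) < 36 * k ^ 2 := by exact_mod_cast hk36
  have hss : s * s = n := by rw [hsdef]; exact Real.mul_self_sqrt (Nat.cast_nonneg n)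
  have hks : 3 * (k : ℝ) ≤ s := by
    rw [hsdef]
    apply Real.le_sqrt_of_sq_le
    nlinarith
  have hs0 : 0 < s := by linarith
  have hsk : s < 6 * k := by nlinarith
  obtain ⟨η, hη0, hη1, hη2⟩ := exists_eta m d hs0
  obtain ⟨v, K, lam, δ, hp, hco, hirr, hl3, hl6, hK1, hK2⟩ := hch η hη0
  rw [← hsdef] at hK1 hK2 hX
  have hnum : Num n k k' m d K s η :=
    { hs := hss, hs0 := hs0, hk := by omega, hk5 := hk5, hks := hks, hsk := hsk, hm := hm, hX := hX,
      hη0 := hη0, hηd := hη1, hηm := hη2, hK1 := hK1, hK2 := hK2 }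
  obtain ⟨hYm1, hYm2⟩ := hnum.Y_m
  have hk1 : 1 ≤ k := by omega
  have hkk : (k : ℝ) = 2 * k' := by
    have : k = 2 * k' := by omega
    exact_mod_cast this
  have hm0 : (0 : ℝ) ≤ m := Nat.cast_nonneg m
  have hK9 := hp.h9
  have hX' := abs_le.1 hX
  have hkn : k ^ 2 ≤ n := by nlinarith
  have hr : ((n - k ^ 2 : ℕ) : ℝ) = n - (k : ℝ) ^ 2 := by
    rw [Nat.cast_sub hkn]; push_cast; ring
  have herr : err 200 k = k / 25 + 600 := by unfold err; push_cast; ring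
  -- hypotheses of the row lemmas
  have hYt : ∀ t : ℕ, t < m → (m : ℝ) - t ≥ 1 ∧
      3 * (d : ℝ) - K * t = (3 * d - K * m) + K * (m - t) := by
    intro t ht
    have h1 : ((t + 1 : ℕ) : ℝ) ≤ m := by exact_mod_cast ht
    push_cast at h1
    exact ⟨by linarith, by ring⟩
  have hA : ∀ t : ℕ, t < m → K ≤ 3 * d - K * t := by
    intro t ht
    obtain ⟨h1, h2⟩ := hYt t ht
    rw [h2]
    nlinarith
  have hB : ∀ e : ℕ, e ≤ k * m + k / 2 → ∀ t : ℕ, t < m → ∀ j < k,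
      ((e - k * t - j : ℕ) : ℝ) ≤ 3 * d - K * t - 9 * j := by
    intro e he t ht j hj
    obtain ⟨h1, h2⟩ := hYt t ht
    have hjk : (j : ℝ) + 1 ≤ k := by exact_mod_cast hj
    have hj0 : (0 : ℝ) ≤ j := Nat.cast_nonneg j
    have h3 : ((e - k * t - j : ℕ) : ℝ) ≤ k * (m - t) + k' - j := by
      have h4 : ((e - k * t - j : ℕ) : ℝ) ≤ ((k * m + k' - k * t - j : ℕ) : ℝ) := by
        exact_mod_cast (by omega : e - k * t - j ≤ k * m + k' - k * t - j)
      have h5 : k * t + j ≤ k * m + k' := by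
        have h6 : k * (t + 1) ≤ k * m := Nat.mul_le_mul_left _ ht
        have h7 : k * (t + 1) = k * t + k := by ring
        omega
      have h8 : ((k * m + k' - k * t - j : ℕ) : ℝ) = k * (m - t) + k' - j := by
        rw [Nat.sub_sub, Nat.cast_sub h5]
        push_cast
        ring
      linarith
    rw [h2]
    have h9 : 9 * (k : ℝ) * (m - t) ≤ K * (m - t) := mul_le_mul_of_nonneg_right hK9 (by linarith)
    nlinarith
  have hO : ∀ e : ℕ, e ≤ k * m + k / 2 → ∀ t : ℕ, t < m → ∀ J : ℕ, K ≤ 3 * d - K * t - 9 * J →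
      K + ((e - k * (t + 1) - J : ℕ) : ℝ) ≤ 3 * d - K * t - 9 * J := by
    intro e he t ht J hJ
    obtain ⟨h1, h2⟩ := hYt t ht
    rcases Nat.eq_zero_or_pos (e - k * (t + 1) - J) with h0 | h0
    · rw [h0]; push_cast; linarith
    · have h6 : k * (t + 1) ≤ k * m := Nat.mul_le_mul_left _ ht
      have h3 : J + 1 + k * (t + 1) ≤ k * m + k' := by omega
      have h3' : (J : ℝ) + 1 + k * (t + 1) ≤ k * m + k' := by exact_mod_cast h3
      have h4 : ((e - k * (t + 1) - J : ℕ) : ℝ) ≤ k * m + k' - k * (t + 1) - J := by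
        have h5 : ((e - k * (t + 1) - J : ℕ) : ℝ) ≤ ((k * m + k' - (k * (t + 1) + J) : ℕ) : ℝ) := by
          exact_mod_cast (by omega : e - k * (t + 1) - J ≤ k * m + k' - (k * (t + 1) + J))
        have h5' : ((k * m + k' - (k * (t + 1) + J) : ℕ) : ℝ) = k * m + k' - (k * (t + 1) + J) := by
          rw [Nat.cast_sub (by omega)]
          push_cast
          ring
        linarith
      rw [h2]
      have h9 : 9 * (k : ℝ) * (m - t - 1) ≤ K * (m - t - 1) :=
        mul_le_mul_of_nonneg_right hK9 (by linarith)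
      nlinarith
  have hTT : ∀ t : ℕ, t < m → ∀ J : ℕ, 3 * d - K * t - 9 * J < K →
      k * m + k / 2 - 1 ≤ k * (t + 1) + J := by
    intro t ht J hJ
    obtain ⟨h1, h2⟩ := hYt t ht
    rw [h2] at hJ
    have h9 : 9 * (k : ℝ) * (m - t - 1) ≤ K * (m - t - 1) :=
      mul_le_mul_of_nonneg_right hK9 (by linarith)
    have h10 : (k : ℝ) * m + k' < k * (t + 1) + J + 1 := by nlinarith
    have h11 : k * m + k' < k * (t + 1) + J + 1 := by exact_mod_cast h10
    omega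
  constructor
  · -- emptiness
    refine hGE k v K lam hk1 hco hp.hlam hK9 hl3 hl6 d (k * m + k / 2) m (n - k ^ 2) ?_ ?_ ?_ ?_
    · have : k ^ 2 + 1 ≤ 9 * k ^ 2 := by nlinarith
      omega
    · intro t ht B hBB
      obtain ⟨h1, h2⟩ := hYt t ht
      have h3 := hU 200 k v K lam δ hp d (k * m + k / 2) t (hA t ht) (hB _ le_rfl t ht) B hBB
      have h4 := (abs_le.1 (hnum.main_eq ht.le (k * m + k / 2))).2
      rw [(hnum.sum_eq ht).1] at h4
      rw [herr] at h3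
      have h5 : ((∑ j ∈ range k, (B j).card : ℕ) : ℝ) + ((n - k ^ 2 : ℕ) : ℝ) * t + 1 ≤
          ((n - k ^ 2 : ℕ) : ℝ) * m := by
        rw [hr]
        nlinarith
      exact_mod_cast h5
    · intro B hBB
      have h3 := (hT k v K lam hk1 hp.hlam hK9 d (k * m + k / 2) m).1 (by linarith) B hBB
      have hY0 : 0 ≤ 3 * (d : ℝ) - K * m := by linarith
      have hY1 : 3 * (d : ℝ) - K * m ≤ 3 * s / 2 := by linarith
      have h4 : (3 * (d : ℝ) - K * m) ^ 2 ≤ (3 * s / 2) ^ 2 := pow_le_pow_left₀ hY0 hY1 2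
      have hmR : (n : ℝ) ≤ 2 * m := by exact_mod_cast hm
      have h5 : ((∑ j ∈ range k, (B j).card : ℕ) : ℝ) ≤ m := by nlinarith
      exact_mod_cast h5
    · intro t ht j z
      refine (hT k v K lam hk1 hp.hlam hK9 d (k * m + k / 2) t).2 ?_ j z
      have h1 : ((m + 1 : ℕ) : ℝ) ≤ t := by exact_mod_cast ht
      push_cast at h1
      nlinarith
  · -- independence
    refine hGS k v K lam hk1 hco hp.hlam hK9 hl3 hl6 hirr d (k * m + k / 2 - 1) m (n - k ^ 2) ?_ ?_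
    · obtain ⟨h1, h2⟩ := hnum.d_bounds
      have h3 : ((3 * (k * m + k') : ℕ) : ℝ) < ((d + 2 : ℕ) : ℝ) := by
        push_cast
        nlinarith
      have h4 : 3 * (k * m + k') < d + 2 := by exact_mod_cast h3
      omega
    · intro t ht
      obtain ⟨h1, h2⟩ := hYt t ht
      obtain ⟨B, hB1, hB2⟩ := hL 200 k v K lam δ hp d (k * m + k / 2 - 1) t (hA t ht)
        (hB _ (Nat.sub_le _ _) t ht) (hO _ (Nat.sub_le _ _) t ht) (hTT t ht)
      refine ⟨B, hB1, ?_⟩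
      have h4 := (abs_le.1 (hnum.main_eq ht.le (k * m + k / 2 - 1))).1
      rw [(hnum.sum_eq ht).2] at h4
      rw [herr] at hB2
      have h5 : ((n - k ^ 2 : ℕ) : ℝ) * (m - t) ≤ ((∑ j ∈ range k, (B j).card : ℕ) : ℝ) := by
        rw [hr]
        nlinarith
      have h6 : (((n - k ^ 2) * (m - t) : ℕ) : ℝ) ≤ ((∑ j ∈ range k, (B j).card : ℕ) : ℝ) := by
        rw [Nat.cast_mul, Nat.cast_sub ht.le]
        exact h5
      exact_mod_cast h6

end Pool.Agent.TH266.UM
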