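import Pool.Agent.TH266.UM.Stmts
import Pool.Agent.TH641.NW.Win
import Pool.Agent.TH603.Cut.FlatE

/-! N13 GEOE: from the rows to emptiness in the plane. -/

set_option autoImplicit false

namespace Pool.Agent.TH266.UM

open Finset Pool.Agent.TH176.Nag Pool.Agent.TH603.Sur Pool.Agent.TH603.Cut

namespace GEOE

/-- the Tate triangle in the form with the parameter `lam` -/
def ST (lam : ℝ) (d : ℕ) : Set (ℤ × ℤ) :=
  {p | 0 ≤ p.2 ∧ -(lam * ((d : ℝ) / 3 - p.2)) ≤ (p.1 : ℝ) ∧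
    (p.1 : ℝ) ≤ (9 - lam) * ((d : ℝ) / 3 - p.2)}

theorem reg_eq (lam : ℝ) (d : ℕ) :
    Reg (-((d : ℝ) * (1 + (lam / 3 - 1)))) (d * (2 - (lam / 3 - 1))) (3 * (1 + (lam / 3 - 1)))
      (3 * (2 - (lam / 3 - 1))) = ST lam d := by
  ext p
  unfold Reg ST
  simp only [Set.mem_ofPred_eq]
  have e1 : -((d : ℝ) * (1 + (lam / 3 - 1))) + 3 * (1 + (lam / 3 - 1)) * (p.2 : ℝ) =
      -(lam * ((d : ℝ) / 3 - p.2)) := by ring
  have e2 : (d : ℝ) * (2 - (lam / 3 - 1)) - 3 * (2 - (lam / 3 - 1)) * (p.2 : ℝ) =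
      (9 - lam) * ((d : ℝ) / 3 - p.2) := by ring
  rw [e1, e2]

theorem ST_finite {lam : ℝ} (h3 : 3 < lam) (h6 : lam < 6) (d : ℕ) : (ST lam d).Finite := by
  apply Set.Finite.subset (Set.finite_Icc ((-(6 * (d : ℤ)), 0) : ℤ × ℤ) ((6 * (d : ℤ), (d : ℤ))))
  rintro ⟨x, j⟩ ⟨h1, h2, h4⟩
  simp only at h1 h2 h4
  have hj : (0 : ℝ) ≤ j := by exact_mod_cast h1
  have hd : (0 : ℝ) ≤ d := Nat.cast_nonneg d
  have hjd : (j : ℝ) ≤ (d : ℝ) / 3 := by
    by_contra hcon
    push Not at hcon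
    nlinarith
  have hx1 : -(6 * (d : ℝ)) ≤ x := by nlinarith
  have hx2 : (x : ℝ) ≤ 6 * d := by nlinarith
  rw [Set.mem_Icc, Prod.mk_le_mk, Prod.mk_le_mk]
  refine ⟨⟨by exact_mod_cast hx1, h1⟩, by exact_mod_cast hx2, ?_⟩
  have : (j : ℝ) ≤ d := by linarith
  exact_mod_cast this

/-- the region after absorbing the point of multiplicity `e` -/
def SA (lam : ℝ) (d e : ℕ) : Set (ℤ × ℤ) :=
  {p | 0 ≤ p.2 ∧ LL lam d e p.2.toNat ≤ p.1 ∧ p.1 ≤ UU lam d p.2.toNat}

/-- the flattened region -/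
def SF (lam : ℝ) (v : ℤ) (k d e : ℕ) : Set (ℤ × ℤ) :=
  {q | 0 ≤ q.2 ∧ ∃ j < k, ∃ z ∈ VV lam v k d e q.2.toNat j, q.1 = k * z + v * j}

/-- the left ends of the lines increase -/
theorem left_mono {lam K : ℝ} {v : ℤ} {k : ℕ} (hK : (k : ℝ) * lam + v = K) (h9 : 9 * (k : ℝ) ≤ K)
    (d e j : ℕ) : Monotone fun s : ℕ => LL lam d e (j + k * s) + v * (s : ℤ) := by
  refine monotone_nat_of_le_succ fun s => ?_
  unfold LL
  have hk : (0 : ℝ) ≤ k := Nat.cast_nonneg k
  have h1 : ⌈-(lam * ((d : ℝ) / 3 - ((j + k * s : ℕ) : ℝ)))⌉ + v * (s : ℤ) + k ≤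
      ⌈-(lam * ((d : ℝ) / 3 - ((j + k * (s + 1) : ℕ) : ℝ)))⌉ + v * ((s + 1 : ℕ) : ℤ) := by
    have e1 : ⌈-(lam * ((d : ℝ) / 3 - ((j + k * s : ℕ) : ℝ)))⌉ + v * (s : ℤ) + k =
        ⌈-(lam * ((d : ℝ) / 3 - ((j + k * s : ℕ) : ℝ))) + ((v * (s : ℤ) + k : ℤ) : ℝ)⌉ := by
      rw [Int.ceil_add_intCast]; ring
    have e2 : ⌈-(lam * ((d : ℝ) / 3 - ((j + k * (s + 1) : ℕ) : ℝ)))⌉ + v * ((s + 1 : ℕ) : ℤ) =
        ⌈-(lam * ((d : ℝ) / 3 - ((j + k * (s + 1) : ℕ) : ℝ))) +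
          ((v * ((s + 1 : ℕ) : ℤ) : ℤ) : ℝ)⌉ := by
      rw [Int.ceil_add_intCast]
    rw [e1, e2]
    apply Int.ceil_mono
    push_cast
    nlinarith
  have h2 : ((e - (j + k * s) : ℕ) : ℤ) ≤ ((e - (j + k * (s + 1)) : ℕ) : ℤ) + k := by
    have e3 : k * (s + 1) = k * s + k := by ring
    rw [e3]
    omega
  linarith

theorem card_le {lam : ℝ} {v : ℤ} {k d e t : ℕ} {M : ℕ}
    (h : ∀ B : ℕ → Finset ℤ, (∀ j < k, ∀ z ∈ B j, z ∈ VV lam v k d e t j) →
      ∑ j ∈ range k, (B j).card ≤ M) {B : Finset ℤ}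
    (hB : ∀ c ∈ B, ((c, (t : ℤ)) : ℤ × ℤ) ∈ SF lam v k d e) : B.card ≤ M := by
  classical
  have hex : ∀ c : ℤ, ∃ z : ℤ, ∀ hc : c ∈ B, ∃ j < k, z ∈ VV lam v k d e t j ∧ c = k * z + v * j := by
    intro c
    by_cases hc : c ∈ B
    · obtain ⟨-, j, hj, z, hz, hcz⟩ := hB c hc
      simp only [Int.toNat_natCast] at hz
      exact ⟨z, fun _ => ⟨j, hj, hz, hcz⟩⟩
    · exact ⟨0, fun h => absurd h hc⟩
  choose z hz using hex
  let C : ℕ → Finset ℤ := fun j => (B.image z).filter fun y => y ∈ VV lam v k d e t j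
  have h1 := h C (fun j _ y hy => (Finset.mem_filter.1 hy).2)
  refine le_trans ?_ h1
  have hsub : B ⊆ (range k).biUnion fun j => (C j).image fun y => (k : ℤ) * y + v * j := by
    intro c hc
    obtain ⟨j, hj, h2, h3⟩ := hz c hc
    rw [Finset.mem_biUnion]
    refine ⟨j, Finset.mem_range.2 hj, Finset.mem_image.2 ⟨z c, ?_, h3.symm⟩⟩
    exact Finset.mem_filter.2 ⟨Finset.mem_image_of_mem z hc, h2⟩
  refine (Finset.card_le_card hsub).trans (Finset.card_biUnion_le.trans ?_)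
  exact Finset.sum_le_sum fun j _ => Finset.card_image_le

end GEOE

open GEOE in
theorem geoE : Pool.Agent.TH266.UM.S_GEOE := by
  classical
  intro k v K lam hk hc hK h9 h3 h6 d e m r hr H1 H2 H3
  refine Pool.Agent.TH885.NW.keyE _ _ d (lam / 3 - 1) (by linarith) (by linarith) ?_
  rw [reg_eq]
  refine Pool.Agent.TH102.DP.Emp_absorb (S' := SA lam d e) e (ST_finite h3 h6 d) (fun p hp => hp.1)
    (fun j => ⌈-(lam * ((d : ℝ) / 3 - j))⌉) (fun p hp => Int.ceil_le.2 hp.2.1) ?_ ?_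
  · rintro ⟨x, j⟩ ⟨h1, h2, h4⟩ h5
    simp only at h1 h2 h4 h5
    obtain ⟨J, rfl⟩ := Int.eq_ofNat_of_zero_le h1
    refine ⟨h1, ?_, ?_⟩
    · simp only [Int.toNat_natCast]
      unfold LL
      simp only [Int.cast_natCast] at h2 h5
      have h7 := Int.ceil_le.2 h2
      omega
    · simp only [Int.toNat_natCast]
      unfold UU
      simp only [Int.cast_natCast] at h4
      exact Int.le_floor.2 h4
  obtain ⟨a, b, hab⟩ := hc
  refine Emp_flat (S' := SF lam v k d e) (k : ℤ) v a b (by linear_combination hab) ?_ ?_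
  · rintro ⟨x, y⟩ T kk ⟨g1, g2, g3⟩ ⟨g4, g5, g6⟩ hT
    simp only at g1 g2 g3 g4 g5 g6
    obtain ⟨J, rfl⟩ := Int.eq_ofNat_of_zero_le g1
    obtain ⟨T', rfl⟩ := Int.eq_ofNat_of_zero_le (show 0 ≤ T by omega)
    have hT' : kk ≤ T' := by exact_mod_cast hT
    have hJ : J % k + k * (J / k) = J := Nat.mod_add_div J k
    refine ⟨by simp, J % k, Nat.mod_lt _ (by omega), x + v * ((J / k : ℕ) : ℤ), ?_, ?_⟩
    · simp only [Int.toNat_natCast] at g2 g3 g5 g6 ⊢
      refine ⟨J / k, ?_, ?_⟩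
      · have h7 := left_mono hK h9 d e (J % k) (Nat.add_le_add_left hT' (J / k))
        simp only at h7
        refine h7.trans ?_
        have e1 : J % k + k * (J / k + T') = ((J : ℤ) + k * T').toNat := by
          have e2 : ((J : ℤ) + k * T') = ((J + k * T' : ℕ) : ℤ) := by push_cast; ring
          rw [e2, Int.toNat_natCast]
          calc J % k + k * (J / k + T') = (J % k + k * (J / k)) + k * T' := by ring
            _ = J + k * T' := by rw [hJ]
        rw [e1]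
        push_cast
        linarith
      · rw [hJ]
        linarith
    · simp only
      have hJz : (J : ℤ) = ((J % k : ℕ) : ℤ) + k * ((J / k : ℕ) : ℤ) := by exact_mod_cast hJ.symm
      rw [hJz]
      ring
  have hσ : (((r - 1 : ℕ) : ℝ)) + 1 = r := by
    have : r - 1 + 1 = r := by omega
    exact_mod_cast this
  have hCl : Emp (fun _ : Fin r => m) (Cl ((r : ℝ) * m) (r : ℝ)) := by
    have h := Pool.Agent.TH641.NW.Emp_Cl (fun _ : Fin r => m)
    simpa using h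
  refine Emp_spread (σ := r - 1) (n' := (r : ℝ)) (Z' := (r : ℝ) * m) hσ.le (J := m)
    (ρ := fun t => if t < m then (r : ℝ) * m - 1 - r * t else if t = m then (m : ℝ) else 0)
    (fun p hp => hp.1) ?_ ?_ ?_ ?_ hCl
  · intro t B hB
    rcases lt_trichotomy t m with h | h | h
    · rw [if_pos h]
      have h7 : r * t + 1 ≤ r * m := by
        have := H1 t h (fun _ => ∅) (by simp)
        simpa using this
      have h8 := card_le (M := r * m - r * t - 1) (fun B' hB' => by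
        have := H1 t h B' hB'
        omega) hB
      have h9' : B.card + r * t + 1 ≤ r * m := by omega
      have h10 : ((B.card + r * t + 1 : ℕ) : ℝ) ≤ ((r * m : ℕ) : ℝ) := by exact_mod_cast h9'
      push_cast at h10
      linarith
    · subst h
      rw [if_neg (lt_irrefl _), if_pos rfl]
      exact_mod_cast card_le (fun B' hB' => H2 B' hB') hB
    · rw [if_neg (by omega), if_neg (by omega)]
      have h7 : B = ∅ := by
        rw [Finset.eq_empty_iff_forall_notMem]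
        intro c hcB
        obtain ⟨-, j, hj, z, hz, -⟩ := hB c hcB
        simp only [Int.toNat_natCast] at hz
        exact H3 t h j z hz
      rw [h7]; simp
  · intro t ht
    simp only [if_pos ht]
    linarith
  · simp only [lt_irrefl, if_false, if_true]
    have : ((r - 1 : ℕ) : ℝ) = r - 1 := by linarith
    rw [this]
    linarith
  · intro t ht
    simp only [if_neg (not_lt.2 ht.le), if_neg (show ¬ t = m by omega)]
    norm_num

end Pool.Agent.TH266.UM
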