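import Pool.Agent.TH885.NW.Final
import Pool.Agent.TH102.DP.Absorb

/-!
# N13: exact postulation of `n` general points of one multiplicity, all large `n`
Definitions and the statements of the pieces (one bubble of `k ^ 2` points, `k = 2 ^ a`).
-/

set_option autoImplicit false

namespace Pool.Agent.TH266.UM

open Finset Pool.Agent.TH176.Nag Pool.Agent.TH603.Sur Pool.Agent.TH603.Cut

/-- left end of row `J` of the Tate triangle after a point of multiplicity `e` is absorbed -/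
noncomputable def LL (lam : ℝ) (d e J : ℕ) : ℤ := ⌈-(lam * ((d : ℝ) / 3 - J))⌉ + ((e - J : ℕ) : ℤ)

/-- right end of row `J` of the Tate triangle -/
noncomputable def UU (lam : ℝ) (d J : ℕ) : ℤ := ⌊(9 - lam) * ((d : ℝ) / 3 - J)⌋

/-- the lines of direction `(-v, k)` in the residue class `j0` with more than `t` points; the line
is given by the coordinate `z = x + v i` of its points `(x, j0 + k i)` -/
def VV (lam : ℝ) (v : ℤ) (k d e t j0 : ℕ) : Set ℤ :=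
  {z | ∃ i : ℕ, LL lam d e (j0 + k * (i + t)) + v * ((i + t : ℕ) : ℤ) ≤ z ∧
    z ≤ UU lam d (j0 + k * i) + v * (i : ℤ)}

/-- the parameters: `K` is the slope of the left side in the coordinate `k x + v j` -/
structure Par (P k : ℕ) (v : ℤ) (K lam δ : ℝ) : Prop where
  hP : 10 ≤ P
  hk : P ≤ k
  hlam : (k : ℝ) * lam + v = K
  h9 : 9 * (k : ℝ) ≤ K
  h18 : K ≤ 18 * k + 1
  hrot : lam = 4 + 1 / P + δ
  hδ0 : 0 ≤ δ
  hδ : δ * P ^ 2 ≤ 1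

/-- the error of the rows -/
noncomputable def err (P k : ℕ) : ℝ := 8 * (k : ℝ) / P + 3 * P

/-- the main term of the rows -/
noncomputable def main (K : ℝ) (k d e t : ℕ) : ℝ :=
  K / 3 * (d + 3 / 2) - K ^ 2 / 9 * (t + 1 / 2) - ∑ j ∈ range k, ((e - k * t - j : ℕ) : ℝ)

/-- ROT : sums of rounding errors of consecutive terms of a rotation -/
def S_ROT : Prop := ∀ (P : ℕ) (lam δ x : ℝ), 10 ≤ P → lam = 4 + 1 / P + δ → 0 ≤ δ → δ * P ^ 2 ≤ 1 →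
  ∀ N : ℕ, |∑ s ∈ range N, Pool.Agent.TH79.NW.phi (x + lam * s)| ≤ 2 * N / P + P / 2 ∧
    |∑ s ∈ range N, Pool.Agent.TH79.NW.phi (x - lam * s)| ≤ 2 * N / P + P / 2

/-- ROWU : upper bound of a row `t` (used for `t < m`) -/
def S_ROWU : Prop := ∀ (P k : ℕ) (v : ℤ) (K lam δ : ℝ), Par P k v K lam δ → ∀ d e t : ℕ,
  K ≤ 3 * d - K * t → (∀ j < k, ((e - k * t - j : ℕ) : ℝ) ≤ 3 * d - K * t - 9 * j) →
  ∀ B : ℕ → Finset ℤ, (∀ j < k, ∀ z ∈ B j, z ∈ VV lam v k d e t j) →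
    ((∑ j ∈ range k, (B j).card : ℕ) : ℝ) ≤ main K k d e t + err P k

/-- ROWL : lower bound of a row `t < m` -/
def S_ROWL : Prop := ∀ (P k : ℕ) (v : ℤ) (K lam δ : ℝ), Par P k v K lam δ → ∀ d e t : ℕ,
  K ≤ 3 * d - K * t → (∀ j < k, ((e - k * t - j : ℕ) : ℝ) ≤ 3 * d - K * t - 9 * j) →
  (∀ J : ℕ, K ≤ 3 * d - K * t - 9 * J → K + ((e - k * (t + 1) - J : ℕ) : ℝ) ≤ 3 * d - K * t - 9 * J) →
  (∀ J : ℕ, 3 * d - K * t - 9 * J < K → e ≤ k * (t + 1) + J) →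
  ∃ B : ℕ → Finset ℤ, (∀ j < k, ∀ z ∈ B j, z ∈ VV lam v k d e t j) ∧
    main K k d e t - err P k ≤ ((∑ j ∈ range k, (B j).card : ℕ) : ℝ)

/-- ROWT : the top row, and the rows above -/
def S_ROWT : Prop := ∀ (k : ℕ) (v : ℤ) (K lam : ℝ), 1 ≤ k → (k : ℝ) * lam + v = K → 9 * (k : ℝ) ≤ K →
  ∀ d e t : ℕ,
  (0 ≤ 3 * d - K * t → ∀ B : ℕ → Finset ℤ, (∀ j < k, ∀ z ∈ B j, z ∈ VV lam v k d e t j) →
    ((∑ j ∈ range k, (B j).card : ℕ) : ℝ) ≤ (3 * d - K * t) ^ 2 / 18 + 2 * (3 * d - K * t) + 6) ∧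
  (3 * d - K * t < 0 → ∀ j z, z ∉ VV lam v k d e t j)

/-- GEOE : from the rows to emptiness in the plane -/
def S_GEOE : Prop := ∀ (k : ℕ) (v : ℤ) (K lam : ℝ), 1 ≤ k → IsCoprime (k : ℤ) v →
  (k : ℝ) * lam + v = K → 9 * (k : ℝ) ≤ K → 3 < lam → lam < 6 →
  ∀ d e m r : ℕ, 1 ≤ r →
  (∀ t < m, ∀ B : ℕ → Finset ℤ, (∀ j < k, ∀ z ∈ B j, z ∈ VV lam v k d e t j) →
    ∑ j ∈ range k, (B j).card + r * t + 1 ≤ r * m) →
  (∀ B : ℕ → Finset ℤ, (∀ j < k, ∀ z ∈ B j, z ∈ VV lam v k d e m j) →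
    ∑ j ∈ range k, (B j).card ≤ m) →
  (∀ t, m < t → ∀ j z, z ∉ VV lam v k d e t j) →
  Emp (fun o : Option (Fin r) => o.elim e (fun _ => m)) (TZ d)

/-- GEOS : from the rows to independence in the plane -/
def S_GEOS : Prop := ∀ (k : ℕ) (v : ℤ) (K lam : ℝ), 1 ≤ k → IsCoprime (k : ℤ) v →
  (k : ℝ) * lam + v = K → 9 * (k : ℝ) ≤ K → 3 < lam → lam < 6 → Irrational lam →
  ∀ d e m r : ℕ, 3 * e ≤ d →
  (∀ t < m, ∃ B : ℕ → Finset ℤ, (∀ j < k, ∀ z ∈ B j, z ∈ VV lam v k d e t j) ∧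
    r * (m - t) ≤ ∑ j ∈ range k, (B j).card) →
  Sur (fun o : Option (Fin r) => o.elim e (fun _ => m)) (TZ d)

/-- CH : the choice of the parameters -/
def S_CH : Prop := ∀ P N : ℕ, 10 ≤ P → ∃ n0 : ℕ, ∀ n : ℕ, n0 ≤ n → ∃ k : ℕ, N ≤ k ∧ Even k ∧
  9 * k ^ 2 ≤ n ∧ n < 36 * k ^ 2 ∧ ∀ η : ℝ, 0 < η → ∃ (v : ℤ) (K lam δ : ℝ), Par P k v K lam δ ∧
    IsCoprime (k : ℤ) v ∧ Irrational lam ∧ 3 < lam ∧ lam < 6 ∧
    3 * √(n : ℝ) < K ∧ K < 3 * √(n : ℝ) + η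

/-- FE : emptiness with the point of multiplicity `k m + k / 2`, independence with the point of
multiplicity `k m + k / 2 - 1` -/
def S_FE : Prop := ∀ N : ℕ, ∃ n0 : ℕ, ∀ n : ℕ, n0 ≤ n → ∃ k : ℕ, N ≤ k ∧ Even k ∧ 9 * k ^ 2 ≤ n ∧
  n < 36 * k ^ 2 ∧ ∀ m d : ℕ, n ≤ 2 * m →
    |√(n : ℝ) * (d + 3 / 2) - n * (m + 1 / 2)| ≤ (k : ℝ) / 4 →
    Emp (fun o : Option (Fin (n - k ^ 2)) => o.elim (k * m + k / 2) (fun _ => m)) (TZ d) ∧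
    Sur (fun o : Option (Fin (n - k ^ 2)) => o.elim (k * m + k / 2 - 1) (fun _ => m)) (TZ d)

/-- MATCH : the matching lemma -/
def S_MATCH : Prop := ∀ (ι₁ ι₂ : Type) [Finite ι₁] [Finite ι₂] (w₁ : ι₁ → ℕ) (w₂ : ι₂ → ℕ)
  (D d p q : ℕ), 1 ≤ D → p + q ≤ D + 1 →
  Emp (Sum.elim w₁ (fun _ : Fin p => 1)) (TZ D) → Emp w₁ (TZ (D - 1)) →
  Emp (Sum.elim (fun o : Option ι₂ => o.elim D w₂) (fun _ : Fin q => 1)) (TZ d) →
  Emp (fun o : Option ι₂ => o.elim (D + 1) w₂) (TZ d) →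
  Emp (Sum.elim w₁ w₂) (TZ d)

/-- ASM : all degrees close to the critical one, `m` not small -/
def S_ASM : Prop := ∃ n0 : ℕ, ∀ n : ℕ, n0 ≤ n → ∀ m d : ℕ, n ≤ 2 * m →
    |2 * (d : ℝ) + 3 - √(n : ℝ) * (2 * m + 1)| ≤ 1 / 12 →
    Emp (fun _ : Fin n => m) (TZ d) ∨ Sur (fun _ : Fin n => m) (TZ d)

/-- the final theorem -/
def S_FINAL : Prop := ∃ N0 : ℕ, ∀ n : ℕ, N0 ≤ n → ∀ m : ℕ, 1 ≤ m → ∀ {L : Type} [Field L] [CharZero L],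
      ∃ F : MvPolynomial (Fin n × Fin 2) ℚ, F ≠ 0 ∧ ∀ (P : Fin n → Fin 2 → L),
        MvPolynomial.aeval (fun ij : Fin n × Fin 2 => P ij.1 ij.2) F ≠ 0 →
        ∀ d : ℕ, Pool.Agent.H932R3.ExpDim L (fun _ => m) P d

end Pool.Agent.TH266.UM
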